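import Pool.Agent.Lib.MP_bd329d_nt.Count

namespace Pool.Agent.Results.MP_bd329d_nt.PolyLog

open Pool.Agent.Lib.MP_bd329d_nt

/-- At most `40 (⌊log₂ N⌋ + 2) ^ 3` integers `n ≤ N` have a triangular factorial. -/
theorem result (N : ℕ) :
    {n : ℕ | n ≤ N ∧ ∃ m : ℕ, 1 ≤ m ∧ n.factorial = m * (m + 1) / 2}.ncard ≤
      40 * (Nat.log 2 N + 2) ^ 3 := by
  have hf : {n : ℕ | n ≤ N ∧ ∃ m : ℕ, 1 ≤ m ∧ n.factorial = m * (m + 1) / 2}.Finite :=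
    (Set.finite_le_nat N).subset fun n hn => hn.1
  rw [Set.ncard_eq_toFinset_card _ hf]
  refine total N _ fun n hn => ?_
  obtain ⟨h1, m, -, h2⟩ := hf.mem_toFinset.1 hn
  exact ⟨h1, m, by rw [h2, Nat.mul_div_cancel' (Nat.even_mul_succ_self m).two_dvd]⟩

end Pool.Agent.Results.MP_bd329d_nt.PolyLog
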